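import Pool.Agent.Helper6.O3.St

set_option autoImplicit false

namespace Pool.Agent.Helper91.O3

open Pool.Agent.Helper6.O3 Filter Topology
open Pool.Agent.Helper99.DF (T TL sq chk Cert ver StVER StTRA StCMP StSND StPR1 StPRC StVP)

theorem key (c : ℕ → ℝ) (r K : ℝ) (k1 : ℕ) (hc0 : c 0 = 0)
    (hTT : ∀ k, k1 ≤ k → T (T c) k = K * r ^ k * c k) (t k : ℕ) (hk : k1 + t ≤ k) :
    (T^[t + 2] c) k = K ^ (2 ^ t) * r ^ (k * 2 ^ t) * (T^[t] c) k := by
  have h1 : T^[t + 2] c = T^[t] (T (T c)) := by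
    rw [Function.iterate_add_apply]; rfl
  have h2 : (T^[t] (T (T c))) k = (T^[t] (fun k => K * r ^ k * c k)) k := by
    apply T_local t k
    intro j h1 h2
    exact hTT j (by omega)
  rw [h1, h2, T_scale K r c hc0 t]

theorem keyW (c : ℕ → ℝ) (r K : ℝ) (k1 : ℕ) (hc0 : c 0 = 0) (hr : 0 < r) (hK : 0 < K)
    (hTT : ∀ k, k1 ≤ k → T (T c) k = K * r ^ k * c k) (t k : ℕ) (hk : k1 + t + 1 ≤ k) :
    W (T^[t + 2] c) k = W (T^[t] c) k := by
  unfold W
  have h1 : T (T^[t + 2] c) k = (T^[t + 1 + 2] c) k := by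
    rw [← Function.iterate_succ_apply' T]
  have h2 : T (T^[t] c) k = (T^[t + 1] c) k := by
    rw [← Function.iterate_succ_apply' T]
  rw [h1, h2, key c r K k1 hc0 hTT (t + 1) k (by omega), key c r K k1 hc0 hTT t k (by omega)]
  have hp : (0 : ℝ) < K ^ (2 ^ (t + 1)) * r ^ (k * 2 ^ (t + 1)) := by positivity
  have h3 : (K ^ (2 ^ t) * r ^ (k * 2 ^ t) * (T^[t] c) k) ^ 2 =
      K ^ (2 ^ (t + 1)) * r ^ (k * 2 ^ (t + 1)) * ((T^[t] c) k) ^ 2 := by
    rw [mul_pow, mul_pow, ← pow_mul, ← pow_mul, pow_succ 2 t, mul_assoc k]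
  rw [h3, mul_div_mul_left _ _ hp.ne']

theorem hTL : StTL := by
  intro c r K k1 hc0 hr hK hpos hTpos hTT
  refine ⟨?_, ?_⟩
  · have : ∀ t, (∀ k, k1 + t ≤ k → 0 < (T^[t] c) k) ∧
        (∀ k, k1 + (t + 1) ≤ k → 0 < (T^[t + 1] c) k) := by
      intro t
      induction t with
      | zero =>
        refine ⟨fun k hk => hpos k (by omega), fun k hk => ?_⟩
        simpa using hTpos k (by omega)
      | succ t ih =>
        refine ⟨ih.2, fun k hk => ?_⟩
        rw [show t + 1 + 1 = t + 2 by rfl, key c r K k1 hc0 hTT t k (by omega)]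
        have := ih.1 k (by omega)
        positivity
    exact fun t => (this t).1
  · have : ∀ t, (∀ k, k1 + t ≤ k → G (T^[t] c) k = G c k ∨ G (T^[t] c) k = G (T c) k) ∧
        (∀ k, k1 + (t + 1) ≤ k → G (T^[t + 1] c) k = G c k ∨ G (T^[t + 1] c) k = G (T c) k) := by
      intro t
      induction t with
      | zero =>
        refine ⟨fun k hk => Or.inl (by simp), fun k hk => Or.inr (by simp)⟩
      | succ t ih =>
        refine ⟨ih.2, fun k hk => ?_⟩
        have h1 : G (T^[t + 1 + 1] c) k = G (T^[t] c) k := by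
          unfold G
          rw [show t + 1 + 1 = t + 2 by rfl, keyW c r K k1 hc0 hr hK hTT t k (by omega),
            keyW c r K k1 hc0 hr hK hTT t (k + 1) (by omega)]
        rw [h1]
        exact ih.1 k (by omega)
    exact fun t => (this t).1

end Pool.Agent.Helper91.O3
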