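import Pool.Agent.Helper6.O3.St2

set_option autoImplicit false

/-! Project O3, module CL: the classification over the reals (written by helper91). -/

namespace Pool.Agent.Helper91.O3

open Pool.Agent.Helper6.O3 Filter Topology
open Pool.Agent.Helper99.DF (T TL sq)

theorem CL_sh2 (a : ℕ → ℝ) (k : ℕ) : shR a (k + 2) = a k := by
  simp [shR]

theorem CL_sh0 (a : ℕ → ℝ) : shR a 0 = 0 := by simp [shR]

theorem CL_sh1 (a : ℕ → ℝ) : shR a 1 = 0 := by simp [shR]

/-- The block. -/
theorem CL_block (a : ℕ → ℝ) (m : ℕ) (h : shR a (m + 1) = 0) :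
    shR (fun k => if k < m then a k else 0) = lb m (shR a) := by
  funext k
  rcases k with _ | _ | k
  · simp [shR, lb]
  · simp [shR, lb]
  · rw [CL_sh2]
    unfold lb
    rw [CL_sh2]
    by_cases h1 : k + 2 ≤ m
    · rw [if_pos h1, if_pos (by omega)]
    · rw [if_neg h1]
      by_cases h2 : k < m
      · rw [if_pos h2]
        have h3 : k + 2 = m + 1 := by omega
        rw [← h3, CL_sh2] at h
        exact h
      · rw [if_neg h2]

theorem CL_zero (a : ℕ → ℝ) (m : ℕ) :
    (∀ k, k < m → m ≤ k + 2 → a k = 0) ↔ (shR a m = 0 ∧ shR a (m + 1) = 0) := by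
  constructor
  · intro h
    constructor
    · rcases m with _ | _ | m
      · exact CL_sh0 a
      · exact CL_sh1 a
      · rw [CL_sh2]; exact h m (by omega) (by omega)
    · rcases m with _ | m
      · exact CL_sh1 a
      · show shR a (m + 2) = 0
        rw [CL_sh2]; exact h m (by omega) (by omega)
  · rintro ⟨h1, h2⟩ k hk hk'
    have : k + 2 = m ∨ k + 2 = m + 1 := by omega
    rcases this with h | h
    · rw [← h, CL_sh2] at h1; exact h1
    · rw [← h, CL_sh2] at h2; exact h2

theorem CL_Tlb (c : ℕ → ℝ) (n : ℕ) (h : c n = 0) (h' : c (n + 1) = 0) :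
    T (lb n c) = lb n (T c) := by
  funext k
  simp only [T, lb]
  rcases lt_trichotomy k n with hk | hk | hk
  · rw [if_pos hk.le, if_pos (show k - 1 ≤ n by omega), if_pos (show k + 1 ≤ n by omega),
      if_pos hk.le]
  · subst hk
    rw [if_pos le_rfl, if_neg (show ¬ k + 1 ≤ k by omega), if_pos le_rfl, h, h']
    ring
  · rw [if_neg (show ¬ k ≤ n by omega), if_neg (show ¬ k + 1 ≤ n by omega),
      if_neg (show ¬ k ≤ n by omega)]
    ring

theorem CL_ka_shift (p q r : ℝ) (c : ℕ → ℝ) (n i : ℕ) :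
    ka p q r (fun k => c (k + n)) i = ka p q r c (i + n) := by
  simp only [ka]
  rw [show i + 3 + n = i + n + 3 by omega, show i + 2 + n = i + n + 2 by omega,
    show i + 1 + n = i + n + 1 by omega]

theorem hCL (hSP : StSP) (hBC : StBC) (hBS : StBS) (hRR : StRR) (hTRR : StTRR) (hHH : StHH)
    (hEX : StEX) (hEY : StEY) : StCL := by
  intro a p q r N hrec hmin
  obtain ⟨c, hc⟩ : ∃ c, c = shR a := ⟨_, rfl⟩
  have c0 : c 0 = 0 := by rw [hc]; exact CL_sh0 a
  have c1 : c 1 = 0 := by rw [hc]; exact CL_sh1 a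
  have c2 : ∀ k, c (k + 2) = a k := by intro k; rw [hc]; exact CL_sh2 a k
  rw [← hTRR a, ← hc]
  constructor
  · intro hI
    have hka : ∀ m, N + 4 ≤ m → ka p q r c m = 0 := by
      intro m hm
      obtain ⟨j, rfl⟩ : ∃ j, m = j + 2 := ⟨m - 2, by omega⟩
      have h1 := hrec j (by omega)
      unfold ka
      rw [show j + 2 + 3 = (j + 3) + 2 by omega, show j + 2 + 1 = (j + 1) + 2 by omega,
        c2, c2, c2, c2, h1]
      ring
    have hth : ∀ k, N + 4 ≤ k → Th c k ≠ 0 := by
      intro k hk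
      obtain ⟨j, rfl⟩ : ∃ j, k = j + 4 := ⟨k - 4, by omega⟩
      have h1 := hmin j (by omega)
      unfold Th
      rw [show j + 4 - 1 = (j + 1) + 2 by omega, show j + 4 - 2 = j + 2 by omega,
        show j + 4 + 1 = (j + 3) + 2 by omega, show j + 4 + 2 = (j + 4) + 2 by omega,
        show j + 4 = (j + 2) + 2 by omega, c2, c2, c2, c2]
      rw [show j + 2 + 2 + 2 = (j + 4) + 2 by omega, c2]
      exact h1
    obtain ⟨n, hn0, hn1, hn2, hkan, hr, halt⟩ := hBC c p q r (N + 4) c0 c1 hI hka hth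
    have hsp := (hSP c n hn0 hn1).1 hI
    have hpos : ∀ k, 0 ≤ c k := fun k => hI 0 k
    obtain ⟨ρ, hρ⟩ : ∃ ρ : ℕ → ℝ, ρ = fun k => c (k + n) := ⟨_, rfl⟩
    have hρ' : ∀ k, ρ k = c (k + n) := fun k => by rw [hρ]
    have hρ0 : ρ 0 = 0 := by rw [hρ' 0]; simpa using hn0
    have hρ1 : ρ 1 = 0 := by rw [hρ' 1, add_comm]; exact hn1
    have hρ2 : ρ 2 = c (n + 2) := by rw [hρ' 2, add_comm]
    have hρa : ∀ i, a (n + i) = ρ (i + 2) := by
      intro i
      rw [hρ', show i + 2 + n = (n + i) + 2 by omega, c2]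
    have hkaρ : ∀ i, ka p q r ρ i = 0 := by
      intro i
      rw [hρ, CL_ka_shift]
      exact hkan _ (by omega)
    have hz : ∀ k, k < n → n ≤ k + 2 → a k = 0 := by
      rw [CL_zero a n, ← hc]
      exact ⟨hn0, hn1⟩
    have hbl : InfLCR (fun k => if k < n then a k else 0) := by
      rw [← hTRR, CL_block a n (by rw [← hc]; exact hn1), ← hc]
      exact hsp.1
    rcases halt with ⟨hp, hq, hd⟩ | ⟨m, hm, hm0, hm1⟩
    · obtain ⟨α, β, γ, hα, hβ, hγ, e1, e2, e3⟩ := hRR p q r hp hq hr hd
      refine ⟨n, c (n + 2), hn2, hz, hbl, Or.inl ⟨α, β, γ, hα, hβ, hγ, ?_⟩⟩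
      intro i
      have h1 := (hHH α β γ ρ hρ0 hρ1).1 (by rw [← e1, ← e2, ← e3]; exact hkaρ) i
      rw [hρa, h1, hρ2]
    · obtain ⟨α, P, A, hα, hP, hA, hform⟩ := hEX ρ p q r (m - n) hρ0 hρ1 (by rw [hρ2]; exact hn2)
        hkaρ hr (fun k => by rw [hρ']; exact hpos _) (by omega)
        (by rw [hρ', show m - n + n = m by omega]; exact hm0)
        (by rw [hρ', show m - n + 1 + n = m + 1 by omega]; exact hm1)
      refine ⟨n, A * α ^ 2, by positivity, hz, hbl, Or.inr ⟨α, P, hα, hP, ?_⟩⟩
      intro i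
      rw [hρa, hform]
      have e1 : ((i + 2 : ℕ) : ℝ) - 1 = (i : ℝ) + 1 := by push_cast; ring
      have e2 : ((i + 2 : ℕ) : ℝ) = (i : ℝ) + 2 := by push_cast; ring
      rw [e1, e2]
      ring
  · rintro ⟨m, A, hA, hz, hbl, halt⟩
    rw [CL_zero a m, ← hc] at hz
    obtain ⟨hm0, hm1⟩ := hz
    rw [← hTRR, CL_block a m (by rw [← hc]; exact hm1), ← hc] at hbl
    obtain ⟨ρ, hρ⟩ : ∃ ρ : ℕ → ℝ, ρ = fun k => c (k + m) := ⟨_, rfl⟩
    have hρ' : ∀ k, ρ k = c (k + m) := fun k => by rw [hρ]
    have hρ0 : ρ 0 = 0 := by rw [hρ' 0]; simpa using hm0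
    have hρ1 : ρ 1 = 0 := by rw [hρ' 1, add_comm]; exact hm1
    have hρa : ∀ i, ρ (i + 2) = a (m + i) := by
      intro i
      rw [hρ', show i + 2 + m = (m + i) + 2 by omega, c2]
    have hkac : ∀ p' q' r' : ℝ, (∀ i, ka p' q' r' ρ i = 0) → ∀ i, m ≤ i → ka p' q' r' c i = 0 := by
      intro p' q' r' h i hi
      have h1 := h (i - m)
      rw [hρ, CL_ka_shift, show i - m + m = i by omega] at h1
      exact h1
    rcases halt with ⟨α, β, γ, hα, hβ, hγ, hform⟩ | ⟨α, P, hα, hP, hform⟩
    · have h0 : a m = A := by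
        have := hform 0
        simpa [hh] using this
      have hm2 : 0 < c (m + 2) := by rw [c2, h0]; exact hA
      have hρ2 : ρ 2 = A := by rw [hρa 0]; simpa using h0
      have hka : ∀ i, ka (α + β + γ) (-(α * β + β * γ + γ * α)) (α * β * γ) ρ i = 0 := by
        refine (hHH α β γ ρ hρ0 hρ1).2 ?_
        intro i
        rw [hρa, hform, hρ2]
      refine hBS c (α + β + γ) (-(α * β + β * γ + γ * α)) (α * β * γ) m hm0 hm1 hm2
        (hkac _ _ _ hka) (by positivity) hbl (Or.inl ⟨by positivity, ?_, ?_⟩)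
      · have : 0 < α * β + β * γ + γ * α := by positivity
        linarith
      · have : dis (α + β + γ) (-(α * β + β * γ + γ * α)) (α * β * γ) =
            ((α - β) * (β - γ) * (γ - α)) ^ 2 := by
          unfold dis
          ring
        rw [this]
        positivity
    · have hform' : ∀ k : ℕ, ρ k = (A / α ^ 2) * α ^ k *
          Real.sin (((k : ℝ) - 1) * (Real.pi / P)) * Real.sin ((k : ℝ) * (Real.pi / P)) := by
        intro k
        rcases k with _ | _ | k
        · rw [hρ0]; simp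
        · rw [show 0 + 1 = 1 by rfl, hρ1]; simp
        · rw [show k + 1 + 1 = k + 2 by rfl, hρa, hform]
          have e1 : ((k + 2 : ℕ) : ℝ) - 1 = (k : ℝ) + 1 := by push_cast; ring
          have e2 : ((k + 2 : ℕ) : ℝ) = (k : ℝ) + 2 := by push_cast; ring
          rw [e1, e2]
          have hα2 : α ^ 2 ≠ 0 := by positivity
          field_simp
          ring
      obtain ⟨_, _, hρ2, hρpos, hTpos, hP0, hP1, p', q', r', hr', hka⟩ :=
        hEY ρ α P (A / α ^ 2) hα hP (by positivity) hform'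
      have hm2 : 0 < c (m + 2) := by
        rw [hρ' 2, add_comm] at hρ2
        exact hρ2
      refine hBS c p' q' r' m hm0 hm1 hm2 (hkac _ _ _ hka) hr' hbl (Or.inr ⟨m + P, by omega, ?_, ?_, ?_⟩)
      · rw [hρ', add_comm] at hP0; exact hP0
      · rw [hρ', show P + 1 + m = m + P + 1 by omega] at hP1; exact hP1
      · intro k _
        by_cases hk : k ≤ m
        · constructor
          · have h1 := hbl 0 k
            simp only [Function.iterate_zero, id, lb] at h1
            rw [if_pos hk] at h1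
            exact h1
          · have h1 := hbl 1 k
            simp only [Function.iterate_one] at h1
            rw [CL_Tlb c m hm0 hm1] at h1
            unfold lb at h1
            rw [if_pos hk] at h1
            exact h1
        · obtain ⟨j, rfl⟩ : ∃ j, k = (j + 1) + m := ⟨k - m - 1, by omega⟩
          constructor
          · have h1 := hρpos (j + 1)
            rw [hρ'] at h1
            exact h1
          · have h1 := hTpos (j + 1)
            simp only [T] at h1 ⊢
            rw [hρ', hρ', hρ', show j + 1 - 1 + m = j + 1 + m - 1 by omega,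
              show j + 1 + 1 + m = j + 1 + m + 1 by omega] at h1
            exact h1

end Pool.Agent.Helper91.O3
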